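import Pool.Agent.Lib_MP_f04076.Main

/-!
# Outer `k`-gap-planar graphs have bounded queue-number (MP_f04076_co, Q1 restricted to convex drawings)

Q1 asks whether `k`-gap-planar graphs have queue-number bounded by a function of `k`.  Here this is proved, for every
`k`, for drawings with all vertices on a circle and the edges drawn inside the disc.

Idea of the proof.  Let `r` be the first vertex and add the (uncrossed) edges between consecutive vertices.  Define
functions `lam 1, ..., lam (k + 1)` on the vertices: `lam t` is the distance from `r` along the edges and along the
arcs `z → x` where `x` is an end of an edge `xy` crossing an edge `zw`, except those where the crossing is charged to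
`xy` and `zw` is upper than `xy` for one of the earlier functions.  Order the vertices lexicographically by these
functions and by the position on the circle.  Two nested edges of the same type in this order are nested on the
circle, and all functions are constant on their left ends and on their right ends.  In a long such family of nested
chords each new function forces one more upper edge crossing all the middle chords, while there can be at most `k`
such edges; so the families are bounded.
-/

set_option autoImplicit false

namespace Pool.Agent.Results.MP_f04076_co.OuterGap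

/-- `G` has a convex `k`-gap-planar drawing.  The vertices are placed on a circle in the (clockwise) order given by the
injective map `pos`; the edges are straight chords (equivalently, arcs in the disc).  Two edges `uv` and `xy` cross iff
their ends alternate on the circle, that is (up to naming) `pos u < pos x < pos v < pos y`.  Every crossing is assigned
to one of its two edges: `A e` is the set of the edges whose crossing with `e` is assigned to `e`, and it has at most
`k` members. -/
def ConvexGapPlanar (k : ℕ) {V : Type} (G : SimpleGraph V) : Prop :=
  ∃ pos : V → ℕ, Function.Injective pos ∧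
    ∃ A : Sym2 V → Finset (Sym2 V), (∀ e : Sym2 V, (A e).card ≤ k) ∧
      ∀ u v x y : V, G.Adj u v → G.Adj x y → pos u < pos x → pos x < pos v → pos v < pos y →
        s(x, y) ∈ A s(u, v) ∨ s(u, v) ∈ A s(x, y)

/-- `G` has queue-number at most `q`: there are an injective vertex order `σ` and a colouring `c` of the edges by `q`
colours such that no two edges of the same colour are nested. -/
def QueueNumberLE (q : ℕ) {V : Type} (G : SimpleGraph V) : Prop :=
  ∃ σ : V → ℕ, Function.Injective σ ∧
    ∃ c : V → V → Fin q, (∀ u v : V, c u v = c v u) ∧
      ∀ u v x y : V, G.Adj u v → G.Adj x y → σ u < σ x → σ x < σ y → σ y < σ v → c u v ≠ c x y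

open Pool.Agent.Lib_MP_f04076 in
/-- Every finite graph with a convex drawing whose crossings can be assigned to the edges so that every edge gets at
most `k` of them has queue-number at most `(20 (k + 1)) ^ (5 k + 7)`. -/
theorem result (k : ℕ) (V : Type) [Fintype V] (G : SimpleGraph V) (hG : ConvexGapPlanar k G) :
    QueueNumberLE ((20 * (k + 1)) ^ (5 * k + 7)) G := by
  obtain ⟨pos, hinj, A, hA, hcr⟩ := hG
  refine main_thm hinj hA ?_
  intro z w x y hzw hxy h
  have sw1 : s(w, z) = s(z, w) := Sym2.eq_swap
  have sw2 : s(y, x) = s(x, y) := Sym2.eq_swap
  have key : (pos z < pos x ∧ pos x < pos w ∧ pos w < pos y) ∨ (pos z < pos y ∧ pos y < pos w ∧ pos w < pos x) ∨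
      (pos w < pos x ∧ pos x < pos z ∧ pos z < pos y) ∨ (pos w < pos y ∧ pos y < pos z ∧ pos z < pos x) ∨
      (pos x < pos z ∧ pos z < pos y ∧ pos y < pos w) ∨ (pos x < pos w ∧ pos w < pos y ∧ pos y < pos z) ∨
      (pos y < pos z ∧ pos z < pos x ∧ pos x < pos w) ∨ (pos y < pos w ∧ pos w < pos x ∧ pos x < pos z) := by
    simp only [Cr, Pool.Agent.Lib_MP_f04076.Btw, Out] at h
    omega
  rcases key with h | h | h | h | h | h | h | h
  · exact hcr z w x y hzw hxy h.1 h.2.1 h.2.2
  · have := hcr z w y x hzw hxy.symm h.1 h.2.1 h.2.2
    rwa [sw2] at this
  · have := hcr w z x y hzw.symm hxy h.1 h.2.1 h.2.2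
    rwa [sw1] at this
  · have := hcr w z y x hzw.symm hxy.symm h.1 h.2.1 h.2.2
    rwa [sw1, sw2] at this
  · exact (hcr x y z w hxy hzw h.1 h.2.1 h.2.2).symm
  · have := hcr x y w z hxy hzw.symm h.1 h.2.1 h.2.2
    rw [sw1] at this
    exact this.symm
  · have := hcr y x z w hxy.symm hzw h.1 h.2.1 h.2.2
    rw [sw2] at this
    exact this.symm
  · have := hcr y x w z hxy.symm hzw.symm h.1 h.2.1 h.2.2
    rw [sw1, sw2] at this
    exact this.symm

end Pool.Agent.Results.MP_f04076_co.OuterGap
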